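import Mathlib

set_option autoImplicit false

/-!
# `φ(k² + 1) = k φ(k + 1)`: two partial results

Let `φ(k² + 1) = k φ(k + 1)`.

1. If `k² + 1` has at most two prime factors (counted with multiplicity), then `k + 1` is prime or
   `k = 8`.
2. If `k > 1` is odd, then `2 φ(k + 1) + 3 ≤ k`; in particular `k + 1` is neither a power of `2` nor
   twice a prime.

Idea: a composite number `n` satisfies `n - φ(n) ≥ √n`. For 1, let `p < q` be the primes with
`p q = k² + 1`, let `x = p - 1` and `m = k - φ(k + 1)`. Then `x² + k² = m k (x + 1)`, so that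
`w = x² / k` is an integer with `k + w = m (x + 1)`, and `m + 1 ≥ √(k + 1)` forces `w = 1` or `x ≤ 5`.
For 2, use the inequality for `(k² + 1) / 2`.
-/

namespace Pool.Agent.Results.MP_9310ca_nt.TwoPrimeFactors

open Nat

/-- For a prime `r`, `φ(r s) ≤ r s - s`. -/
theorem totient_add_le (r : ℕ) (hr : r.Prime) (s : ℕ) : φ (r * s) + s ≤ r * s := by
  induction s using Nat.strong_induction_on with
  | _ s ih =>
    by_cases hs : r ∣ s
    · obtain ⟨t, rfl⟩ := hs
      rcases Nat.eq_zero_or_pos t with rfl | ht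
      · simp
      · have h1 := ih t (by nlinarith [hr.two_le])
        rw [Nat.totient_mul_of_prime_of_dvd hr (Dvd.intro t rfl)]
        nlinarith [hr.two_le]
    · rw [Nat.totient_mul_of_prime_of_not_dvd hr hs]
      have h1 : φ s ≤ s := Nat.totient_le s
      obtain ⟨r', rfl⟩ : ∃ r', r = r' + 1 := ⟨r - 1, by have := hr.two_le; omega⟩
      have h2 : r' + 1 - 1 = r' := by omega
      rw [h2]
      nlinarith

/-- The cototient of a composite number `n` is at least `√n`. -/
theorem cototient_sq (n : ℕ) (hn : 2 ≤ n) (hc : ¬ n.Prime) :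
    ∃ c, φ n + c ≤ n ∧ n ≤ c * c := by
  have hr : n.minFac.Prime := Nat.minFac_prime (by omega)
  obtain ⟨s, hs⟩ := Nat.minFac_dvd n
  have h1 : n.minFac ^ 2 ≤ n := Nat.minFac_sq_le_self (by omega) hc
  refine ⟨s, ?_, ?_⟩
  · have := totient_add_le n.minFac hr s
    rw [← hs] at this
    exact this
  · have h2 : n.minFac ≤ s := by
      have h3 : n.minFac * n.minFac ≤ n.minFac * s := by
        rw [← hs, ← sq]; exact h1
      exact Nat.le_of_mul_le_mul_left h3 hr.pos
    calc n = n.minFac * s := hs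
      _ ≤ s * s := Nat.mul_le_mul_right s h2

theorem arith (k x w m : ℤ) (hk : 1 ≤ k) (hx : 1 ≤ x) (hw : 1 ≤ w) (hwx : w < x)
    (h1 : k * w = x ^ 2) (h2 : k + w = m * (x + 1)) (h3 : k + 1 ≤ (m + 1) ^ 2) (hm : 1 ≤ m) :
    k = 8 := by
  have hx5 : x ≤ 5 := by
    by_contra hcon
    push Not at hcon
    have hx6 : 6 ≤ x := by linarith
    -- `x ≤ m + 2`
    have hm2 : 2 ≤ m := by
      by_contra h
      have hm1 : m = 1 := by omega
      subst hm1
      nlinarith
    have h4 : x * (m - 1) ≤ (m - 1) * (m + 2) + 1 := by nlinarith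
    have hxm : x ≤ m + 2 := by
      by_contra h
      push Not at h
      have h5 : m + 3 ≤ x := by linarith
      have h6 : (m - 1) * (m + 3) ≤ (m - 1) * x := mul_le_mul_of_nonneg_left h5 (by linarith)
      have h7 : m - 1 ≤ 1 := by nlinarith
      have h8 : m = 2 := by omega
      subst h8
      linarith
    rcases eq_or_lt_of_le hw with hw1 | hw2
    · rw [← hw1] at h1 h2
      have h5 : (x + 1) ∣ 2 := ⟨m - (x - 1), by linear_combination h2 - h1⟩
      have h6 := Int.le_of_dvd (by norm_num) h5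
      linarith
    · have hw2' : 2 ≤ w := by linarith
      have h5 : x ^ 2 - x - 2 - w ≤ k := by nlinarith
      have h6 : (x ^ 2 - x - 2 - w) * w ≤ k * w := mul_le_mul_of_nonneg_right h5 (by linarith)
      have h7 : 0 ≤ (w - 2) * (x - 1 - w) := mul_nonneg (by linarith) (by linarith)
      have h8 : 0 ≤ (w - 2) * (x ^ 2 - 2 * x - 3) := mul_nonneg (by linarith) (by nlinarith)
      nlinarith
  interval_cases x <;> interval_cases w <;> omega

/-- The case of two primes `p < q`. -/
theorem two_primes (k p q : ℕ) (hp : p.Prime) (hq : q.Prime) (hlt : p < q)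
    (hpq : p * q = k ^ 2 + 1) (hS : φ (k ^ 2 + 1) = k * φ (k + 1)) (hc : ¬ (k + 1).Prime) :
    k = 8 := by
  have hk0 : 1 ≤ k := by
    rcases Nat.eq_zero_or_pos k with rfl | h
    · have := hp.two_le
      have := hq.two_le
      nlinarith
    · exact h
  obtain ⟨c, hc1, hc2⟩ := cototient_sq (k + 1) (by omega) hc
  rw [← hpq, Nat.totient_mul ((Nat.coprime_primes hp hq).2 hlt.ne),
    Nat.totient_prime hp, Nat.totient_prime hq] at hS
  obtain ⟨x, rfl⟩ : ∃ x, p = x + 1 := ⟨p - 1, by have := hp.two_le; omega⟩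
  obtain ⟨y, rfl⟩ : ∃ y, q = y + 1 := ⟨q - 1, by have := hq.two_le; omega⟩
  have hx1 : 1 ≤ x := by have := hp.two_le; omega
  simp only [Nat.add_sub_cancel] at hS
  obtain ⟨f, hf⟩ : ∃ f, f = φ (k + 1) := ⟨_, rfl⟩
  rw [← hf] at hS hc1
  have hlt' : x < y := by omega
  -- pass to the integers
  zify at hk0 hc1 hc2 hS hpq hx1 hlt'
  have hc0 : (0 : ℤ) ≤ c := Int.natCast_nonneg c
  have hc3 : (2 : ℤ) ≤ c := by nlinarith
  have e1 : (x : ℤ) + y = k * (k - f) := by linear_combination hpq - hS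
  have e2 : (x : ℤ) ^ 2 + k ^ 2 = k * (k - f) * (x + 1) := by
    linear_combination (x : ℤ) * e1 - hS
  have hxk : (x : ℤ) < k := by
    have h4 : ((x : ℤ) + 1) ^ 2 < k ^ 2 + 1 := by nlinarith
    nlinarith
  have h5 : (k : ℤ) * ((k - f) * (x + 1) - k) = x ^ 2 := by linear_combination -e2
  have hw1 : 1 ≤ ((k : ℤ) - f) * (x + 1) - k := by
    by_contra h
    have h6 : ((k : ℤ) - f) * (x + 1) - k ≤ 0 := by omega
    nlinarith
  have hw2 : ((k : ℤ) - f) * (x + 1) - k < x := by
    by_contra h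
    push Not at h
    have h6 : (k : ℤ) * x ≤ x ^ 2 := by
      rw [← h5]
      exact mul_le_mul_of_nonneg_left h (by linarith)
    nlinarith
  have := arith k x (((k : ℤ) - f) * (x + 1) - k) (k - f) hk0 hx1 hw1 hw2 h5 (by ring)
    (by nlinarith) (by linarith)
  exact_mod_cast this

/-- The case of at most two prime factors. -/
theorem at_most_two (k : ℕ) (hS : φ (k ^ 2 + 1) = k * φ (k + 1))
    (hΩ : (k ^ 2 + 1).primeFactorsList.length ≤ 2) : (k + 1).Prime ∨ k = 8 := by
  by_contra hcon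
  push Not at hcon
  obtain ⟨hc, h8⟩ := hcon
  have hprod := Nat.prod_primeFactorsList (n := k ^ 2 + 1) (by positivity)
  have hpr : ∀ p ∈ (k ^ 2 + 1).primeFactorsList, p.Prime := fun p hp =>
    Nat.prime_of_mem_primeFactorsList hp
  rcases hl : (k ^ 2 + 1).primeFactorsList with _ | ⟨p, _ | ⟨q, _ | ⟨r, l⟩⟩⟩
  · rw [hl] at hprod
    have hk : k = 0 := by
      simp only [List.prod_nil] at hprod
      nlinarith
    subst hk
    simp at hS
  · rw [hl] at hprod hpr
    have hp : (k ^ 2 + 1).Prime := by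
      rw [← hprod]
      simpa using hpr
    rw [Nat.totient_prime hp, Nat.add_sub_cancel, sq] at hS
    rcases Nat.eq_zero_or_pos k with rfl | hk
    · exact absurd hp (by norm_num)
    · have h1 : φ (k + 1) = k := (Nat.eq_of_mul_eq_mul_left hk hS).symm
      exact hc ((Nat.totient_eq_iff_prime (by omega)).1 (by rw [h1]; omega))
  · rw [hl] at hprod hpr
    have hp : p.Prime := hpr p (by simp)
    have hq : q.Prime := hpr q (by simp)
    have hpq : p * q = k ^ 2 + 1 := by simpa using hprod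
    rcases lt_trichotomy p q with h | h | h
    · exact h8 (two_primes k p q hp hq h hpq hS hc)
    · subst h
      have h1 : k < p := by
        by_contra h2
        push Not at h2
        nlinarith
      have h3 : 1 ≤ k := by
        rcases Nat.eq_zero_or_pos k with rfl | h4
        · simp at hS
        · exact h4
      nlinarith
    · exact h8 (two_primes k q p hq hp h (by rw [mul_comm]; exact hpq) hS hc)
  · rw [hl] at hΩ
    simp at hΩ

/-- The case of odd `k`. -/
theorem odd_case (k : ℕ) (hodd : Odd k) (hk : 1 < k) (hS : φ (k ^ 2 + 1) = k * φ (k + 1)) :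
    2 * φ (k + 1) + 3 ≤ k := by
  by_contra hcon
  push Not at hcon
  obtain ⟨j, hj⟩ := hodd
  have hf1 : k ≤ 2 * φ (k + 1) + 1 := by omega
  obtain ⟨f, hf⟩ : ∃ f, f = φ (k + 1) := ⟨_, rfl⟩
  rw [← hf] at hS hf1
  obtain ⟨n, hn⟩ : ∃ n, n = 2 * j ^ 2 + 2 * j + 1 := ⟨_, rfl⟩
  have hn2 : k ^ 2 + 1 = 2 * n := by rw [hj, hn]; ring
  have hcop : Nat.Coprime 2 n := by
    rw [Nat.coprime_two_left]
    exact ⟨j ^ 2 + j, by rw [hn]; ring⟩
  have hphi : φ n = k * f := by
    rw [← hS, hn2, Nat.totient_mul hcop, Nat.totient_two, one_mul]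
  by_cases hnp : n.Prime
  · rw [Nat.totient_prime hnp] at hphi
    have hn1 : n = k * f + 1 := by have := hnp.two_le; omega
    -- `k ^ 2 = 2 k f + 1`
    have h1 : k ^ 2 = k * (2 * f) + 1 := by
      rw [hn1] at hn2
      have : k * (2 * f) = 2 * (k * f) := by ring
      omega
    have h2 : k ∣ 1 := by
      have h3 : k ∣ k * (2 * f) + 1 := by rw [← h1]; exact dvd_pow_self k (by norm_num)
      exact (Nat.dvd_add_right (Dvd.intro _ rfl)).1 h3
    have := Nat.le_of_dvd (by norm_num) h2
    omega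
  · obtain ⟨c, hc1, hc2⟩ := cototient_sq n (by nlinarith) hnp
    rw [hphi] at hc1
    zify at hc1 hc2 hn2 hf1 hk
    have hk' : (2 : ℤ) ≤ k := by linarith
    have hc0 : (0 : ℤ) ≤ c := Int.natCast_nonneg c
    have h1 : (k : ℤ) * (k - 1) ≤ k * (2 * f) :=
      mul_le_mul_of_nonneg_left (by linarith) (by linarith)
    have h2 : 2 * (c : ℤ) ≤ k + 1 := by nlinarith
    have h3 : (2 * (c : ℤ)) ^ 2 ≤ (k + 1) ^ 2 := by
      apply pow_le_pow_left₀ (by linarith) h2
    nlinarith

open ArithmeticFunction in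
/-- Let `φ (k ^ 2 + 1) = k * φ (k + 1)`. If `k ^ 2 + 1` has at most two prime factors, counted with
multiplicity, then `k + 1` is prime or `k = 8`. If `k > 1` is odd, then `2 φ(k + 1) + 3 ≤ k`, and
`k + 1` is neither a power of two nor twice a prime. -/
theorem result :
    (∀ k : ℕ, Nat.totient (k ^ 2 + 1) = k * Nat.totient (k + 1) →
      cardFactors (k ^ 2 + 1) ≤ 2 → (k + 1).Prime ∨ k = 8) ∧
    (∀ k : ℕ, Nat.totient (k ^ 2 + 1) = k * Nat.totient (k + 1) → Odd k → 1 < k →
      2 * Nat.totient (k + 1) + 3 ≤ k ∧ (∀ a : ℕ, k + 1 ≠ 2 ^ a) ∧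
        ∀ r : ℕ, r.Prime → k + 1 ≠ 2 * r) := by
  refine ⟨fun k hS hΩ => at_most_two k hS (by rwa [cardFactors_apply] at hΩ),
    fun k hS hodd hk => ?_⟩
  have h1 := odd_case k hodd hk hS
  refine ⟨h1, fun a ha => ?_, fun r hr hkr => ?_⟩
  · rcases Nat.eq_zero_or_pos a with rfl | h
    · simp at ha
      omega
    · obtain ⟨b, rfl⟩ : ∃ b, a = b + 1 := ⟨a - 1, by omega⟩
      rw [ha, Nat.totient_prime_pow Nat.prime_two (by omega)] at h1
      simp only [Nat.add_sub_cancel] at h1
      rw [pow_succ] at ha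
      omega
  · rcases hr.eq_two_or_odd' with rfl | hro
    · have h4 : k = 3 := by omega
      subst h4
      have : Nat.totient (3 + 1) = 2 := by decide
      omega
    · have h5 : Nat.Coprime 2 r := Nat.coprime_two_left.2 hro
      rw [hkr, Nat.totient_mul h5, Nat.totient_two, one_mul, Nat.totient_prime hr] at h1
      have := hr.two_le
      omega

end Pool.Agent.Results.MP_9310ca_nt.TwoPrimeFactors
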